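import Pool.Agent.Helper92.Bulk.Main

/-!
Critical bond percolation on the square lattice: the one-arm exponent `5/48` in the plane, in the
form of two-sided bounds, with uniform constants, for the crossing probabilities of annuli.

`crF m n` is the probability that in the annulus `{z : m ≤ |z|_∞ ≤ n}` a vertex with `|z|_∞ = m` is
joined to a vertex with `|z|_∞ = n` by a path of open edges (`m = 0`: the origin is joined to
distance `n`, the one-arm probability).
-/

set_option autoImplicit false

open H47Perc

namespace Pool.Agent.Results.MP_35f495_pr.BulkOneArm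

/-- There are `0 < c` and `C` such that for all `0 ≤ m ≤ n` the crossing probability of the
annulus `{m ≤ |z|_∞ ≤ n}` lies between `c ((m+1)/(n+1))^(5/48)` and `C ((m+1)/(n+1))^(5/48)`. -/
theorem result : ∃ c C : ℝ, 0 < c ∧ ∀ m n : ℕ, m ≤ n →
    c * (((m:ℝ) + 1) / (n + 1)) ^ (5 / 48 : ℝ) ≤ crF m n ∧
    crF m n ≤ C * (((m:ℝ) + 1) / (n + 1)) ^ (5 / 48 : ℝ) :=
  H92Link.annulus_crossing

end Pool.Agent.Results.MP_35f495_pr.BulkOneArm
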