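import Pool.Agent.Helper29.SuperAss

/-!
# The pairs that occur as unique basic superranks of associative varieties

Let `F` be a field of characteristic zero and let `V` be either the variety of all associative
`F`-algebras or a variety generated by the Grassmann envelope of a finite-dimensional superalgebra
(over `F`, or over any field extension of `F`).  By Kemer's theorem this covers every variety of
associative algebras.  Then `V` has a basic superrank `(r, s)` with `r ≤ 2` and a basic superrank
`(r', s')` with `s' ≤ 1`.  In particular, the basic spectrum of `V` is not of the form `{(r, s)}`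
with `r > 2` or `s > 1`.
-/

universe u

namespace Pool.Agent.Helper82.Retired.UniqueSuperrankBound

open Pool.Agent.Helper29

theorem result (F : Type u) [Field F] [CharZero F] (V : Set (AssocAlg F))
    (hV : V = Set.univ ∨ IsFinDimEnvelopeVariety V) :
    (∃ p ∈ basicSpectrum V, p.1 ≤ 2) ∧ (∃ p ∈ basicSpectrum V, p.2 ≤ 1) ∧
      ∀ r s : ℕ, 2 < r ∨ 1 < s → basicSpectrum V ≠ {(r, s)} := by
  have h : HasBounds V := by
    rcases hV with rfl | ⟨L, _, _, A, hA, rfl⟩
    · exact bound_univ
    · exact bound_restrict A hA
  refine ⟨h.1, h.2, fun r s hrs hV' => ?_⟩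
  obtain ⟨⟨p, hp, hp2⟩, ⟨q, hq, hq1⟩⟩ := h
  rw [hV', Set.mem_singleton_iff] at hp hq
  subst hp
  subst hq
  rcases hrs with h1 | h1
  · exact absurd h1 (not_lt.2 hp2)
  · exact absurd h1 (not_lt.2 hq1)

end Pool.Agent.Helper82.Retired.UniqueSuperrankBound
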